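import Pool.Agent.N178.HX.StmG

/-!
# The sums property for three odd sign functions (project GHC3, task L3)
-/

set_option autoImplicit false

namespace Pool.Agent.N383.HX

open Finset Pool.Agent.N178.HX

noncomputable section

/-- sign functions which are odd and compatible with `r` -/
structure OS {G : Type} (c : G → G) (r : G → G → Prop) (h : G → ℤ) : Prop where
  sgn : ∀ σ, h σ = 1 ∨ h σ = -1
  odd : ∀ σ, h (c σ) = -h σ
  com : ∀ σ τ, r σ τ → h σ = h τ

lemma OS.neg {G : Type} {c : G → G} {r : G → G → Prop} {h : G → ℤ} (H : OS c r h) :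
    OS c r (-h) := by
  refine ⟨fun σ => ?_, fun σ => ?_, fun σ τ hr => ?_⟩
  · rcases H.sgn σ with h1 | h1 <;> simp [h1]
  · simp [H.odd σ]
  · simp [H.com σ τ hr]

lemma sum_thr (y r : ℕ) :
    ∑ t ∈ range (y + r), (if t < y then (-1 : ℤ) else 1) = r - y := by
  induction r with
  | zero =>
    have : ∀ t ∈ range (y + 0), (if t < y then (-1 : ℤ) else 1) = -1 := by
      intro t ht
      rw [if_pos (by simpa using ht)]
    rw [sum_congr rfl this]
    simp
  | succ r ih =>
    rw [← add_assoc, sum_range_succ, ih, if_neg (by omega)]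
    push_cast
    ring

lemma sum_list {G : Type} (N : ℕ) (h : ℕ → G → ℤ) (σ : G) :
    ((List.range N).map h).sum σ = ∑ t ∈ range N, h t σ := by
  induction N with
  | zero => simp
  | succ N ih =>
    rw [List.range_succ, List.map_append, List.sum_append, sum_range_succ, Pi.add_apply, ih]
    simp

lemma spf_of {G : Type} [Nonempty G] (c : G → G) (r : G → G → Prop) (F : Set (G → ℤ))
    (e : G → ℤ) (he : OS c r e) (hF : ∀ g ∈ F, OS c r g) (hall : ∀ h, OS c r h → h ∈ F) :
    SPF F := by
  intro f hf N hN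
  have key : (∀ σ, f (c σ) = -f σ) ∧ (∀ σ τ, r σ τ → f σ = f τ) ∧
      ∀ σ τ, Even (f σ - f τ) := by
    clear hN
    induction hf using AddSubgroup.closure_induction with
    | mem g hg =>
      have H := hF g hg
      refine ⟨H.odd, H.com, fun σ τ => ?_⟩
      rcases H.sgn σ with h1 | h1 <;> rcases H.sgn τ with h2 | h2 <;> rw [h1, h2] <;> decide
    | zero => simp
    | add a b _ _ ha hb =>
      refine ⟨fun σ => ?_, fun σ τ hr => ?_, fun σ τ => ?_⟩
      · simp only [Pi.add_apply, ha.1 σ, hb.1 σ]; ring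
      · simp only [Pi.add_apply, ha.2.1 σ τ hr, hb.2.1 σ τ hr]
      · obtain ⟨m, hm⟩ := ha.2.2 σ τ
        obtain ⟨n, hn⟩ := hb.2.2 σ τ
        exact ⟨m + n, by simp only [Pi.add_apply]; linarith⟩
    | neg a _ ha =>
      refine ⟨fun σ => ?_, fun σ τ hr => ?_, fun σ τ => ?_⟩
      · simp only [Pi.neg_apply, ha.1 σ]
      · simp only [Pi.neg_apply, ha.2.1 σ τ hr]
      · obtain ⟨m, hm⟩ := ha.2.2 σ τ
        exact ⟨-m, by simp only [Pi.neg_apply]; linarith⟩
  obtain ⟨k1, k2, k3⟩ := key
  obtain ⟨σ0⟩ := ‹Nonempty G›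
  -- the number `M` of summands
  obtain ⟨M, hMN, hM1, hM2⟩ : ∃ M : ℕ, M ≤ N ∧ (∀ σ, |f σ| ≤ M) ∧
      ∀ σ, Even ((M : ℤ) - f σ) := by
    by_cases h0 : Even ((N : ℤ) - f σ0)
    · refine ⟨N, le_rfl, hN, fun σ => ?_⟩
      obtain ⟨m, hm⟩ := h0
      obtain ⟨n, hn⟩ := k3 σ0 σ
      exact ⟨m + n, by linarith⟩
    · rcases Nat.eq_zero_or_pos N with hz | hz
      · exfalso
        have h1 := hN σ0
        rw [hz] at h1 h0
        have h2 : f σ0 = 0 := by
          have := abs_nonneg (f σ0)
          have h3 : |f σ0| = 0 := le_antisymm (by simpa using h1) this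
          exact abs_eq_zero.1 h3
        rw [h2] at h0
        exact h0 (by simp)
      · have h4 : ∀ σ, Odd ((N : ℤ) - f σ) := by
          intro σ
          rw [← Int.not_even_iff_odd]
          intro h5
          apply h0
          obtain ⟨m, hm⟩ := h5
          obtain ⟨n, hn⟩ := k3 σ σ0
          exact ⟨m + n, by linarith⟩
        refine ⟨N - 1, by omega, fun σ => ?_, fun σ => ?_⟩
        · obtain ⟨m, hm⟩ := h4 σ
          have h6 := hN σ
          rw [abs_le] at h6 ⊢
          push_cast [Nat.cast_sub (show 1 ≤ N from hz)]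
          constructor <;> omega
        · obtain ⟨m, hm⟩ := h4 σ
          refine ⟨m, ?_⟩
          push_cast [Nat.cast_sub (show 1 ≤ N from hz)]
          omega
  have hes : ∀ σ, e σ * e σ = 1 := fun σ => by
    rcases he.sgn σ with h | h <;> rw [h] <;> norm_num
  -- thresholds
  have hx : ∀ σ, ∃ y : ℕ, y ≤ M ∧ (M : ℤ) - e σ * f σ = 2 * y := by
    intro σ
    have h1 : Even ((M : ℤ) - e σ * f σ) := by
      rcases he.sgn σ with h | h
      · rw [h, one_mul]; exact hM2 σ
      · rw [h]
        have : (M : ℤ) - -1 * f σ = ((M : ℤ) - f σ) + (f σ + f σ) := by ring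
        rw [this]
        exact (hM2 σ).add ⟨f σ, rfl⟩
    obtain ⟨m, hm⟩ := h1
    have h2 := abs_le.1 (hM1 σ)
    have h3 : -(M : ℤ) ≤ e σ * f σ ∧ e σ * f σ ≤ M := by
      rcases he.sgn σ with h | h <;> rw [h] <;> constructor <;> linarith [h2.1, h2.2]
    have h4 : 0 ≤ m := by omega
    refine ⟨m.toNat, by omega, ?_⟩
    rw [Int.toNat_of_nonneg h4, hm]
    ring
  choose y hy1 hy2 using hx
  have hyc : ∀ σ, y (c σ) = y σ := by
    intro σ
    have h1 := hy2 (c σ)
    rw [he.odd, k1] at h1
    have h2 := hy2 σ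
    have : -e σ * -f σ = e σ * f σ := by ring
    rw [this] at h1
    omega
  have hyr : ∀ σ τ, r σ τ → y σ = y τ := by
    intro σ τ hr
    have h1 := hy2 σ
    rw [he.com σ τ hr, k2 σ τ hr] at h1
    have h2 := hy2 τ
    omega
  let h : ℕ → G → ℤ := fun t σ => e σ * (if t < y σ then -1 else 1)
  have hh : ∀ t, OS c r (h t) := by
    intro t
    refine ⟨fun σ => ?_, fun σ => ?_, fun σ τ hr => ?_⟩
    · show e σ * (if t < y σ then -1 else 1) = 1 ∨ e σ * (if t < y σ then -1 else 1) = -1
      rcases he.sgn σ with h | h <;> rw [h] <;> split_ifs <;> norm_num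
    · show e (c σ) * (if t < y (c σ) then -1 else 1) = -(e σ * (if t < y σ then -1 else 1))
      rw [he.odd, hyc]; ring
    · show e σ * (if t < y σ then -1 else 1) = e τ * (if t < y τ then -1 else 1)
      rw [he.com σ τ hr, hyr σ τ hr]
  refine ⟨(List.range M).map h, ?_, ?_, ?_⟩
  · intro g hg
    obtain ⟨t, _, rfl⟩ := List.mem_map.1 hg
    exact hall _ (hh t)
  · simpa using hMN
  · funext σ
    rw [sum_list]
    show ∑ t ∈ range M, e σ * (if t < y σ then -1 else 1) = f σ
    rw [← mul_sum]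
    obtain ⟨s, hs⟩ := Nat.exists_eq_add_of_le (hy1 σ)
    have h1 := sum_thr (y σ) s
    rw [← hs] at h1
    rw [h1]
    have h2 := hy2 σ
    have h3 : (s : ℤ) - y σ = e σ * f σ := by
      have : (M : ℤ) = y σ + s := by exact_mod_cast hs
      linarith
    rw [h3, ← mul_assoc, hes, one_mul]

/-- odd sign functions of two patterns -/
lemma two {G : Type} (c : G → G) (a b h : G → ℤ) (r : G → G → Prop) (ha : OS c r a)
    (hb : OS c r b) (hh : OS c r h) (hr : ∀ σ τ, a σ = a τ → b σ = b τ → r σ τ) :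
    h = a ∨ h = -a ∨ h = b ∨ h = -b := by
  -- `h * a` depends on `a * b` only
  have key : ∀ v : ℤ, ∃ w : ℤ, (w = 1 ∨ w = -1) ∧ ∀ σ, a σ * b σ = v → h σ * a σ = w := by
    intro v
    by_cases hv : ∃ σ, a σ * b σ = v
    · obtain ⟨σ, hσ⟩ := hv
      refine ⟨h σ * a σ, ?_, fun τ hτ => ?_⟩
      · rcases hh.sgn σ with h1 | h1 <;> rcases ha.sgn σ with h2 | h2 <;> rw [h1, h2] <;> norm_num
      · have hbv : ∀ ρ, a ρ * b ρ = v → b ρ = a ρ * v := by
          intro ρ hρ
          rw [← hρ, ← mul_assoc]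
          rcases ha.sgn ρ with h2 | h2 <;> rw [h2] <;> norm_num
        by_cases hst : a τ = a σ
        · rw [hh.com τ σ (hr τ σ hst (by rw [hbv τ hτ, hbv σ hσ, hst])), hst]
        · have h3 : a τ = a (c σ) := by
            rw [ha.odd]
            rcases ha.sgn σ with h2 | h2 <;> rcases ha.sgn τ with h4 | h4 <;>
              rw [h2, h4] at hst ⊢ <;> first | rfl | simp at hst
          have h5 : b τ = b (c σ) := by
            rw [hb.odd, hbv τ hτ, hbv σ hσ, h3, ha.odd]; ring
          rw [hh.com τ (c σ) (hr τ (c σ) h3 h5), h3, ha.odd, hh.odd]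
          ring
    · exact ⟨1, Or.inl rfl, fun σ hσ => absurd ⟨σ, hσ⟩ hv⟩
  obtain ⟨w1, hw1, k1⟩ := key 1
  obtain ⟨w2, hw2, k2⟩ := key (-1)
  have fin : ∀ g : G → ℤ, (∀ σ, g σ * a σ = if a σ * b σ = 1 then w1 else w2) → h = g := by
    intro g hg
    funext σ
    have h1 : h σ * a σ = g σ * a σ := by
      rw [hg σ]
      split_ifs with h2
      · exact k1 σ h2
      · apply k2 σ
        rcases ha.sgn σ with h3 | h3 <;> rcases hb.sgn σ with h4 | h4 <;> rw [h3, h4] at h2 ⊢ <;>
          first | rfl | simp at h2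
    rcases ha.sgn σ with h3 | h3 <;> rw [h3] at h1 <;> linarith
  rcases hw1 with rfl | rfl <;> rcases hw2 with rfl | rfl
  · left
    apply fin
    intro σ
    rcases ha.sgn σ with h3 | h3 <;> rcases hb.sgn σ with h4 | h4 <;> rw [h3, h4] <;> norm_num
  · right; right; left
    apply fin
    intro σ
    rcases ha.sgn σ with h3 | h3 <;> rcases hb.sgn σ with h4 | h4 <;> rw [h3, h4] <;> norm_num
  · right; right; right
    apply fin
    intro σ
    rw [Pi.neg_apply]
    rcases ha.sgn σ with h3 | h3 <;> rcases hb.sgn σ with h4 | h4 <;> rw [h3, h4] <;> norm_num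
  · right; left
    apply fin
    intro σ
    rw [Pi.neg_apply]
    rcases ha.sgn σ with h3 | h3 <;> rcases hb.sgn σ with h4 | h4 <;> rw [h3, h4] <;> norm_num

/-- odd sign functions of three patterns -/
lemma three {G : Type} (c : G → G) (g : Fin 3 → G → ℤ) (h : G → ℤ)
    (hg : ∀ i, OS c (fun σ τ => ∀ i, g i σ = g i τ) (g i))
    (hh : OS c (fun σ τ => ∀ i, g i σ = g i τ) h)
    (hk : ∀ σ, g 0 σ + g 1 σ + g 2 σ = 1 ∨ g 0 σ + g 1 σ + g 2 σ = -1) :
    (∃ i, h = g i ∨ h = -g i) ∨ (∀ σ, h σ = g 0 σ + g 1 σ + g 2 σ) ∨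
      ∀ σ, h σ = -(g 0 σ + g 1 σ + g 2 σ) := by
  set κ : G → ℤ := fun σ => g 0 σ + g 1 σ + g 2 σ with hκ
  have hκs : ∀ σ, κ σ = 1 ∨ κ σ = -1 := hk
  have cls : ∀ σ, (g 0 σ = -κ σ ∧ g 1 σ = κ σ ∧ g 2 σ = κ σ) ∨
      (g 0 σ = κ σ ∧ g 1 σ = -κ σ ∧ g 2 σ = κ σ) ∨
      (g 0 σ = κ σ ∧ g 1 σ = κ σ ∧ g 2 σ = -κ σ) := by
    intro σ
    have h0 := (hg 0).sgn σ
    have h1 := (hg 1).sgn σ
    have h2 := (hg 2).sgn σ
    have h3 := hk σ
    simp only [hκ]
    omega
  have key : ∀ u : Fin 3 → ℤ, ∃ w : ℤ, (w = 1 ∨ w = -1) ∧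
      ∀ σ, (∀ i, g i σ = u i * κ σ) → h σ = w * κ σ := by
    intro u
    by_cases hv : ∃ σ, ∀ i, g i σ = u i * κ σ
    · obtain ⟨σ, hσ⟩ := hv
      have hκ2 : κ σ * κ σ = 1 := by rcases hκs σ with h1 | h1 <;> rw [h1] <;> norm_num
      refine ⟨h σ * κ σ, ?_, fun τ hτ => ?_⟩
      · rcases hh.sgn σ with h1 | h1 <;> rcases hκs σ with h2 | h2 <;> rw [h1, h2] <;> norm_num
      · by_cases hst : κ τ = κ σ
        · rw [hh.com τ σ (fun i => by rw [hτ i, hσ i, hst]), hst, mul_assoc, hκ2, mul_one]
        · have h3 : κ τ = -κ σ := by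
            rcases hκs σ with h2 | h2 <;> rcases hκs τ with h4 | h4 <;> rw [h2, h4] at hst ⊢ <;>
              first | rfl | simp at hst
          rw [hh.com τ (c σ) (fun i => by rw [hτ i, (hg i).odd, hσ i, h3]; ring), hh.odd, h3,
            mul_neg, mul_assoc, hκ2, mul_one]
    · exact ⟨1, Or.inl rfl, fun σ hσ => absurd ⟨σ, hσ⟩ hv⟩
  obtain ⟨w0, hw0, k0⟩ := key ![-1, 1, 1]
  obtain ⟨w1, hw1, k1⟩ := key ![1, -1, 1]
  obtain ⟨w2, hw2, k2⟩ := key ![1, 1, -1]
  have fin : ∀ e : G → ℤ, (∀ σ, (g 0 σ = -κ σ → e σ = w0 * κ σ) ∧ (g 1 σ = -κ σ → e σ = w1 * κ σ) ∧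
      (g 2 σ = -κ σ → e σ = w2 * κ σ)) → h = e := by
    intro e he
    funext σ
    rcases cls σ with ⟨a0, a1, a2⟩ | ⟨a0, a1, a2⟩ | ⟨a0, a1, a2⟩
    · rw [(he σ).1 a0, k0 σ (fun i => by fin_cases i <;> simp [a0, a1, a2])]
    · rw [(he σ).2.1 a1, k1 σ (fun i => by fin_cases i <;> simp [a0, a1, a2])]
    · rw [(he σ).2.2 a2, k2 σ (fun i => by fin_cases i <;> simp [a0, a1, a2])]
  have hκs' := hκs
  rcases hw0 with rfl | rfl <;> rcases hw1 with rfl | rfl <;> rcases hw2 with rfl | rfl
  · right; left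
    intro σ
    have := fin κ (fun σ => by simp)
    rw [this]
  · left; refine ⟨2, Or.inl (fin _ fun σ => ?_)⟩
    rcases cls σ with ⟨a0, a1, a2⟩ | ⟨a0, a1, a2⟩ | ⟨a0, a1, a2⟩ <;>
      refine ⟨fun b => ?_, fun b => ?_, fun b => ?_⟩ <;> rcases hκs σ with hh | hh <;> omega
  · left; refine ⟨1, Or.inl (fin _ fun σ => ?_)⟩
    rcases cls σ with ⟨a0, a1, a2⟩ | ⟨a0, a1, a2⟩ | ⟨a0, a1, a2⟩ <;>
      refine ⟨fun b => ?_, fun b => ?_, fun b => ?_⟩ <;> rcases hκs σ with hh | hh <;> omega
  · left; refine ⟨0, Or.inr (fin _ fun σ => ?_)⟩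
    rw [Pi.neg_apply]
    rcases cls σ with ⟨a0, a1, a2⟩ | ⟨a0, a1, a2⟩ | ⟨a0, a1, a2⟩ <;>
      refine ⟨fun b => ?_, fun b => ?_, fun b => ?_⟩ <;> rcases hκs σ with hh | hh <;> omega
  · left; refine ⟨0, Or.inl (fin _ fun σ => ?_)⟩
    rcases cls σ with ⟨a0, a1, a2⟩ | ⟨a0, a1, a2⟩ | ⟨a0, a1, a2⟩ <;>
      refine ⟨fun b => ?_, fun b => ?_, fun b => ?_⟩ <;> rcases hκs σ with hh | hh <;> omega
  · left; refine ⟨1, Or.inr (fin _ fun σ => ?_)⟩
    rw [Pi.neg_apply]
    rcases cls σ with ⟨a0, a1, a2⟩ | ⟨a0, a1, a2⟩ | ⟨a0, a1, a2⟩ <;>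
      refine ⟨fun b => ?_, fun b => ?_, fun b => ?_⟩ <;> rcases hκs σ with hh | hh <;> omega
  · left; refine ⟨2, Or.inr (fin _ fun σ => ?_)⟩
    rw [Pi.neg_apply]
    rcases cls σ with ⟨a0, a1, a2⟩ | ⟨a0, a1, a2⟩ | ⟨a0, a1, a2⟩ <;>
      refine ⟨fun b => ?_, fun b => ?_, fun b => ?_⟩ <;> rcases hκs σ with hh | hh <;> omega
  · right; right
    intro σ
    have := fin (fun σ => -κ σ) (fun σ => by simp)
    rw [this]

/-- the closure of `pm f` -/
lemma mem_pm {G : Type} (f : Fin 3 → G → ℤ) (F : G → ℤ) (hF : F ∈ AddSubgroup.closure (pm f)) :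
    ∃ d : Fin 3 → ℤ, ∀ σ, F σ = ∑ i, d i * f i σ := by
  induction hF using AddSubgroup.closure_induction with
  | mem g hg =>
    obtain ⟨i, rfl | rfl⟩ := hg
    · refine ⟨fun j => if j = i then 1 else 0, fun σ => ?_⟩
      simp
    · refine ⟨fun j => if j = i then -1 else 0, fun σ => ?_⟩
      simp
  | zero => exact ⟨0, by simp⟩
  | add a b _ _ ha hb =>
    obtain ⟨d, hd⟩ := ha
    obtain ⟨e, he⟩ := hb
    refine ⟨d + e, fun σ => ?_⟩
    rw [Pi.add_apply, hd, he, ← sum_add_distrib]
    exact sum_congr rfl fun i _ => by rw [Pi.add_apply]; ring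
  | neg a _ ha =>
    obtain ⟨d, hd⟩ := ha
    refine ⟨-d, fun σ => ?_⟩
    rw [Pi.neg_apply, hd, ← sum_neg_distrib]
    exact sum_congr rfl fun i _ => by rw [Pi.neg_apply]; ring

lemma all_real {G : Type} (f : Fin 3 → G → ℤ)
    (h : ∀ s : Fin 3 → ℤ, (∀ i, s i = 1 ∨ s i = -1) → ∃ σ, ∀ i, f i σ = s i) : SPF (pm f) := by
  intro F hF N hN
  obtain ⟨d, hd⟩ := mem_pm f F hF
  let s : Fin 3 → ℤ := fun i => if 0 ≤ d i then 1 else -1
  obtain ⟨σ, hσ⟩ := h s (fun i => by show (if 0 ≤ d i then (1:ℤ) else -1) = 1 ∨ (if 0 ≤ d i then (1:ℤ) else -1) = -1; split_ifs <;> simp)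
  have hb : ∑ i, |d i| ≤ N := by
    have h1 := hN σ
    rw [hd σ] at h1
    have h2 : ∑ i, d i * f i σ = ∑ i, |d i| := by
      refine sum_congr rfl fun i _ => ?_
      rw [hσ i]
      show d i * (if 0 ≤ d i then 1 else -1) = |d i|
      split_ifs with h3
      · rw [abs_of_nonneg h3, mul_one]
      · rw [abs_of_neg (by omega)]; ring
    rw [h2] at h1
    exact (le_abs_self _).trans h1
  let L : Fin 3 → List (G → ℤ) := fun i => List.replicate (d i).natAbs (s i • f i)
  refine ⟨L 0 ++ L 1 ++ L 2, ?_, ?_, ?_⟩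
  · have hL : ∀ i, ∀ g ∈ L i, g ∈ pm f := by
      intro i g hg
      have := List.eq_of_mem_replicate hg
      rw [this]
      refine ⟨i, ?_⟩
      show (if 0 ≤ d i then (1 : ℤ) else -1) • f i = f i ∨
        (if 0 ≤ d i then (1 : ℤ) else -1) • f i = -f i
      split_ifs
      · left; simp
      · right; simp
    intro g hg
    rw [List.mem_append, List.mem_append] at hg
    rcases hg with (hg | hg) | hg
    exacts [hL 0 g hg, hL 1 g hg, hL 2 g hg]
  · rw [Fin.sum_univ_three, Int.abs_eq_natAbs, Int.abs_eq_natAbs, Int.abs_eq_natAbs] at hb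
    simp only [L, List.length_append, List.length_replicate]
    omega
  · funext σ
    rw [hd σ, Fin.sum_univ_three]
    have hL : ∀ i, (L i).sum σ = d i * f i σ := by
      intro i
      simp only [L, List.sum_replicate]
      show ((d i).natAbs • ((if 0 ≤ d i then (1 : ℤ) else -1) • f i)) σ = d i * f i σ
      simp only [Pi.smul_apply, smul_eq_mul, nsmul_eq_mul]
      split_ifs with h3
      · have : ((d i).natAbs : ℤ) = d i := by omega
        rw [this]; ring
      · have : ((d i).natAbs : ℤ) = -d i := by omega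
        rw [this]; ring
    rw [List.sum_append, List.sum_append, Pi.add_apply, Pi.add_apply, hL, hL, hL]

lemma third : ∀ i j : Fin 3, i ≠ j → ∃ k, ∀ l, l = i ∨ l = j ∨ l = k := by decide

theorem t_L3 : S_L3 := by
  intro G _ c f hs ho
  have hOS : ∀ i, OS c (fun σ τ => ∀ i, f i σ = f i τ) (f i) :=
    fun i => ⟨hs i, ho i, fun σ τ h => h i⟩
  have hpm : ∀ g ∈ pm f, OS c (fun σ τ => ∀ i, f i σ = f i τ) g := by
    rintro g ⟨i, rfl | rfl⟩
    · exact hOS i
    · exact (hOS i).neg
  by_cases h1 : ∃ i j, i ≠ j ∧ (f i = f j ∨ f i = -f j)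
  · left
    obtain ⟨i, j, hij, hf⟩ := h1
    obtain ⟨k, hk⟩ := third i j hij
    refine spf_of c _ (pm f) (f 0) (hOS 0) hpm fun h hh => ?_
    have h2 := two c (f i) (f k) h _ (hOS i) (hOS k) hh (by
      intro σ τ e1 e2 l
      rcases hk l with rfl | rfl | rfl
      · exact e1
      · rcases hf with hf | hf
        · rw [← hf]; exact e1
        · have := congrFun hf σ
          have h3 := congrFun hf τ
          rw [Pi.neg_apply] at this h3
          linarith
      · exact e2)
    rcases h2 with h2 | h2 | h2 | h2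
    exacts [⟨i, Or.inl h2⟩, ⟨i, Or.inr h2⟩, ⟨k, Or.inl h2⟩, ⟨k, Or.inr h2⟩]
  · push Not at h1
    by_cases h2 : ∃ s : Fin 3 → ℤ, (∀ i, s i = 1 ∨ s i = -1) ∧
        (∀ σ, ∑ i, s i * f i σ = 1 ∨ ∑ i, s i * f i σ = -1)
    · right
      obtain ⟨s, hs1, hs2⟩ := h2
      refine ⟨s, hs1, hs2, fun t ht1 ht2 => ?_, h1, ?_⟩
      · have bad : ∀ i j, i ≠ j → (∀ σ, s i * f i σ = -(s j * f j σ)) → False := by
          intro i j hij h
          rcases hs1 i with hi | hi <;> rcases hs1 j with hj | hj
          · exact (h1 i j hij).2 (funext fun σ => by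
              have := h σ
              rw [hi, hj] at this
              rw [Pi.neg_apply]
              linarith)
          · exact (h1 i j hij).1 (funext fun σ => by
              have := h σ
              rw [hi, hj] at this
              linarith)
          · exact (h1 i j hij).1 (funext fun σ => by
              have := h σ
              rw [hi, hj] at this
              linarith)
          · exact (h1 i j hij).2 (funext fun σ => by
              have := h σ
              rw [hi, hj] at this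
              rw [Pi.neg_apply]
              linarith)
        have hg : ∀ i σ, s i * f i σ = 1 ∨ s i * f i σ = -1 := by
          intro i σ
          rcases hs1 i with h | h <;> rcases hs i σ with h' | h' <;> rw [h, h'] <;> norm_num
        have hsq : ∀ i, s i * s i = 1 := fun i => by
          rcases hs1 i with h | h <;> rw [h] <;> norm_num
        have ha : ∀ i, t i * s i = 1 ∨ t i * s i = -1 := by
          intro i
          rcases hs1 i with h | h <;> rcases ht1 i with h' | h' <;> rw [h, h'] <;> norm_num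
        have hta : ∀ i, t i = (t i * s i) * s i := fun i => by rw [mul_assoc, hsq, mul_one]
        have hT : ∀ σ, ∑ i, t i * f i σ = (t 0 * s 0) * (s 0 * f 0 σ) + (t 1 * s 1) * (s 1 * f 1 σ)
            + (t 2 * s 2) * (s 2 * f 2 σ) := by
          intro σ
          rw [Fin.sum_univ_three]
          have e : ∀ i, t i * f i σ = (t i * s i) * (s i * f i σ) := fun i => by
            calc t i * f i σ = t i * (s i * s i) * f i σ := by rw [hsq, mul_one]
              _ = _ := by ring
          rw [e 0, e 1, e 2]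
        have hS : ∀ σ, ∑ i, s i * f i σ = s 0 * f 0 σ + s 1 * f 1 σ + s 2 * f 2 σ :=
          fun σ => Fin.sum_univ_three _
        simp only [hT] at ht2
        simp only [hS] at hs2
        rcases ha 0 with a0 | a0 <;> rcases ha 1 with a1 | a1 <;> rcases ha 2 with a2 | a2 <;>
          simp only [a0, a1, a2] at ht2
        · left
          funext i
          rw [hta i]
          fin_cases i <;> simp [a0, a1, a2]
        · exact (bad 0 1 (by decide) fun σ => by
            rcases hg 0 σ with h | h <;> rcases hg 1 σ with h' | h' <;> rcases hg 2 σ with h'' | h'' <;>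
              rcases hs2 σ with k | k <;> rcases ht2 σ with k' | k' <;> omega).elim
        · exact (bad 0 2 (by decide) fun σ => by
            rcases hg 0 σ with h | h <;> rcases hg 1 σ with h' | h' <;> rcases hg 2 σ with h'' | h'' <;>
              rcases hs2 σ with k | k <;> rcases ht2 σ with k' | k' <;> omega).elim
        · exact (bad 1 2 (by decide) fun σ => by
            rcases hg 0 σ with h | h <;> rcases hg 1 σ with h' | h' <;> rcases hg 2 σ with h'' | h'' <;>
              rcases hs2 σ with k | k <;> rcases ht2 σ with k' | k' <;> omega).elim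
        · exact (bad 1 2 (by decide) fun σ => by
            rcases hg 0 σ with h | h <;> rcases hg 1 σ with h' | h' <;> rcases hg 2 σ with h'' | h'' <;>
              rcases hs2 σ with k | k <;> rcases ht2 σ with k' | k' <;> omega).elim
        · exact (bad 0 2 (by decide) fun σ => by
            rcases hg 0 σ with h | h <;> rcases hg 1 σ with h' | h' <;> rcases hg 2 σ with h'' | h'' <;>
              rcases hs2 σ with k | k <;> rcases ht2 σ with k' | k' <;> omega).elim
        · exact (bad 0 1 (by decide) fun σ => by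
            rcases hg 0 σ with h | h <;> rcases hg 1 σ with h' | h' <;> rcases hg 2 σ with h'' | h'' <;>
              rcases hs2 σ with k | k <;> rcases ht2 σ with k' | k' <;> omega).elim
        · right
          funext i
          rw [hta i, Pi.neg_apply]
          fin_cases i <;> simp [a0, a1, a2]
      · have hκ : OS c (fun σ τ => ∀ i, f i σ = f i τ) (fun σ => ∑ i, s i * f i σ) := by
          refine ⟨hs2, fun σ => ?_, fun σ τ h => ?_⟩
          · show ∑ i, s i * f i (c σ) = -∑ i, s i * f i σ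
            rw [← sum_neg_distrib]
            exact sum_congr rfl fun i _ => by rw [ho]; ring
          · exact sum_congr rfl fun i _ => by rw [h i]
        refine spf_of c _ _ (f 0) (hOS 0) ?_ fun h hh => ?_
        · rintro g (hg | hg | hg)
          · exact hpm g hg
          · rw [hg]; exact hκ
          · rw [hg]; exact hκ.neg
        · have hrel : ∀ σ τ, (∀ i, s i * f i σ = s i * f i τ) → ∀ i, f i σ = f i τ := by
            intro σ τ h i
            have h3 := h i
            rcases hs1 i with h4 | h4 <;> rw [h4] at h3 <;> linarith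
          have h3 := three c (fun i σ => s i * f i σ) h
            (fun i => ⟨fun σ => by
                rcases hs1 i with h | h <;> rcases hs i σ with h' | h' <;> simp only [h, h'] <;>
                  norm_num,
              fun σ => by simp only [ho]; ring, fun σ τ h => h i⟩)
            ⟨hh.sgn, hh.odd, fun σ τ hr => hh.com σ τ (hrel σ τ hr)⟩
            (fun σ => by have := hs2 σ; rwa [Fin.sum_univ_three] at this)
          rcases h3 with ⟨i, h3⟩ | h3 | h3
          · left
            refine ⟨i, ?_⟩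
            rcases hs1 i with h4 | h4
            · rcases h3 with h3 | h3
              · left; rw [h3]; funext σ; simp only [h4, one_mul]
              · right; rw [h3]; funext σ; simp only [Pi.neg_apply, h4, one_mul]
            · rcases h3 with h3 | h3
              · right; rw [h3]; funext σ; simp only [Pi.neg_apply, h4]; ring
              · left; rw [h3]; funext σ; simp only [Pi.neg_apply, h4]; ring
          · right; left
            funext σ
            rw [h3 σ, Fin.sum_univ_three]
          · right; right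
            show h = _
            funext σ
            rw [h3 σ, Fin.sum_univ_three]
    · left
      push Not at h2
      refine all_real f fun s hs1 => ?_
      obtain ⟨σ, h3, h4⟩ := h2 s hs1
      rw [Fin.sum_univ_three] at h3 h4
      have hg : ∀ i, s i * f i σ = 1 ∨ s i * f i σ = -1 := by
        intro i
        rcases hs1 i with h | h <;> rcases hs i σ with h' | h' <;> rw [h, h'] <;> norm_num
      have hsf : ∀ i τ, s i * f i τ = 1 → f i τ = s i := by
        intro i τ h
        rcases hs1 i with h' | h' <;> rw [h'] at h ⊢ <;> linarith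
      by_cases h5 : ∀ i, s i * f i σ = 1
      · exact ⟨σ, fun i => hsf i σ (h5 i)⟩
      · have h6 : ∀ i, s i * f i σ = -1 := by
          have g0 := hg 0
          have g1 := hg 1
          have g2 := hg 2
          have : ¬ (s 0 * f 0 σ = 1 ∧ s 1 * f 1 σ = 1 ∧ s 2 * f 2 σ = 1) := by
            rintro ⟨b0, b1, b2⟩
            exact h5 (fun i => by fin_cases i <;> assumption)
          have h7 : s 0 * f 0 σ = -1 ∧ s 1 * f 1 σ = -1 ∧ s 2 * f 2 σ = -1 := by omega
          intro i
          fin_cases i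
          exacts [h7.1, h7.2.1, h7.2.2]
        refine ⟨c σ, fun i => hsf i (c σ) ?_⟩
        rw [ho]
        have := h6 i
        linarith

end

end Pool.Agent.N383.HX
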